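import Mathlib
import Pool.Agent.H710R2.DP.Defs
import Pool.Agent.H710R2.DP.Defs2
import Pool.Agent.H710R2.DP.Tasks
import Pool.Agent.H710R2.DP.VTasks

open scoped ComplexOrder InnerProductSpace ComplexConjugate
open Finset

noncomputable section

namespace H710R2.DP

open H759R2.Kad

namespace Z459

section

variable {H : Type} [NormedAddCommGroup H] [InnerProductSpace ℂ H] [CompleteSpace H]
  {M : VonNeumannAlgebra H}

theorem smul_mem' {x : H →L[ℂ] H} (c : ℂ) (hx : x ∈ M) : c • x ∈ M :=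
  M.toStarSubalgebra.smul_mem hx c

theorem rsmul_mem' {x : H →L[ℂ] H} (c : ℝ) (hx : x ∈ M) : c • x ∈ M := by
  have := smul_mem' (M := M) (c : ℂ) hx
  rwa [show ((c : ℂ) • x) = c • x from RCLike.real_smul_eq_coe_smul (K := ℂ) c x ▸ rfl] at this

theorem cen_add {x y : H →L[ℂ] H} (hx : IsCen M x) (hy : IsCen M y) : IsCen M (x + y) :=
  ⟨add_mem hx.1 hy.1, fun a ha => by rw [add_mul, mul_add, hx.2 a ha, hy.2 a ha]⟩

theorem cen_smul {x : H →L[ℂ] H} (c : ℂ) (hx : IsCen M x) : IsCen M (c • x) :=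
  ⟨smul_mem' c hx.1, fun a ha => by rw [smul_mul_assoc, mul_smul_comm, hx.2 a ha]⟩

theorem cen_rsmul {x : H →L[ℂ] H} (c : ℝ) (hx : IsCen M x) : IsCen M (c • x) :=
  ⟨rsmul_mem' c hx.1, fun a ha => by rw [smul_mul_assoc, mul_smul_comm, hx.2 a ha]⟩

theorem cen_one : IsCen M (1 : H →L[ℂ] H) := ⟨one_mem M, fun a _ => by rw [one_mul, mul_one]⟩

theorem cen_zero : IsCen M (0 : H →L[ℂ] H) := ⟨zero_mem M, fun a _ => by rw [zero_mul, mul_zero]⟩

/-- subprojections are cut out by central projections -/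
theorem cut (h1 : V_supp) (h2 : F_polar.{0}) {r : H →L[ℂ] H} (hrM : r ∈ M) (hr : IsPr r)
    (hv : ∀ v ∈ M, IsPI v → r * v = v → v * r = v → v * v = 0 → v = 0)
    {E : H →L[ℂ] H} (hE : E ∈ M) (hEp : IsPr E) (hrE : r * E = E) :
    ∃ z, IsCP M z ∧ E = z * r := by
  have hEr : E * r = E := by
    have := congrArg star hrE
    rwa [star_mul, hEp.1, hr.1] at this
  have hE1 : (r - E) * (r - E) = r - E := by
    rw [sub_mul, mul_sub, mul_sub, hr.2, hrE, hEr, hEp.2]; abel
  have hcl : ∀ a ∈ M, (r - E) * a * E = 0 := by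
    intro a ha
    obtain ⟨v, hvM, hPI, hvx, hL, hR⟩ := h2 H M ((r - E) * a * E)
      (mul_mem (mul_mem (sub_mem hrM hE) ha) hE)
    have e1 : (1 - (r - E)) * v = 0 := by
      apply hL
      rw [sub_mul, one_mul, mul_assoc (r - E) a E, ← mul_assoc (r - E) (r - E) (a * E), hE1, sub_self]
    have e2 : v * (1 - E) = 0 := by
      apply hR
      rw [mul_sub, mul_one, mul_assoc _ E E, hEp.2, sub_self]
    have e1' : (r - E) * v = v := by
      rw [sub_mul, one_mul, sub_eq_zero] at e1; exact e1.symm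
    have e2' : v * E = v := by
      rw [mul_sub, mul_one, sub_eq_zero] at e2; exact e2.symm
    have e3 : r * v = v := by
      calc r * v = r * ((r - E) * v) := by rw [e1']
        _ = (r * (r - E)) * v := by rw [mul_assoc]
        _ = (r - E) * v := by rw [mul_sub, hr.2, hrE]
        _ = v := e1'
    have e4 : v * r = v := by
      calc v * r = (v * E) * r := by rw [e2']
        _ = v * (E * r) := by rw [mul_assoc]
        _ = v := by rw [hEr, e2']
    have e5 : v * v = 0 := by
      calc v * v = (v * E) * ((r - E) * v) := by rw [e1', e2']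
        _ = v * (E * (r - E)) * v := by simp only [mul_assoc]
        _ = 0 := by rw [mul_sub, hEr, hEp.2, sub_self, mul_zero, zero_mul]
    have e6 := hv v hvM hPI e3 e4 e5
    rw [← hvx, e6, zero_mul, zero_mul]
  obtain ⟨z, hz, hzE, hy⟩ := h1 H M E hE
  have h3 : (r - E) * z = 0 := hy _ hcl
  have h4 : z * (r - E) = 0 := by
    rw [hz.2.2 (r - E) (sub_mem hrM hE)]; exact h3
  refine ⟨z, hz, ?_⟩
  rw [mul_sub, hzE, sub_eq_zero] at h4
  exact h4.symm

theorem conj_nonneg {a c : H →L[ℂ] H} (ha : 0 ≤ a) : 0 ≤ star c * a * c :=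
  star_left_conjugate_nonneg ha c

/-- positive elements under `r` -/
theorem pos_approx (h3 : Z_bin) {r : H →L[ℂ] H} (hr : IsPr r)
    (hcut : ∀ E ∈ M, IsPr E → r * E = E → ∃ z, IsCP M z ∧ E = z * r) (n : ℕ) :
    ∀ (y : H →L[ℂ] H) (s : ℝ), 0 < s → y ∈ M → 0 ≤ y → y ≤ algebraMap ℝ (H →L[ℂ] H) s →
      r * y = y → ∃ z, IsCen M z ∧ 0 ≤ y - z * r ∧
        y - z * r ≤ algebraMap ℝ (H →L[ℂ] H) (s / 2 ^ n) := by
  induction n with
  | zero =>
    intro y s _ _ h0 h1 _
    refine ⟨0, cen_zero, ?_, ?_⟩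
    · rw [zero_mul, sub_zero]; exact h0
    · rw [zero_mul, sub_zero, pow_zero, div_one]; exact h1
  | succ n ih =>
    intro y s hs hy h0 h1 hry
    obtain ⟨e, he, hep, -, h4, h5⟩ := h3 H M y s hy h0 h1
    have hys : star y = y := (IsSelfAdjoint.of_nonneg h0).star_eq
    have hyr : y * r = y := by
      have := congrArg star hry
      rwa [star_mul, hys, hr.1] at this
    have hs1 : star (1 - r) = 1 - r := by rw [star_sub, star_one, hr.1]
    have hyz : y * (1 - r) = 0 := by rw [mul_sub, mul_one, hyr, sub_self]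
    -- `e` is below `r`
    have h6 : 0 ≤ (1 - r) * (y - (s / 2) • e) * (1 - r) := by
      have := conj_nonneg (c := 1 - r) h4
      rwa [hs1] at this
    have h7 : (1 - r) * (y - (s / 2) • e) * (1 - r) = -((s / 2) • ((1 - r) * e * (1 - r))) := by
      generalize 1 - r = c at hyz
      rw [mul_sub, sub_mul, mul_assoc c y c, hyz, mul_zero, zero_sub, mul_smul_comm,
        smul_mul_assoc]
    have h8 : 0 ≤ (1 - r) * e * (1 - r) := by
      have h9 : 0 ≤ e := by
        have := star_mul_self_nonneg e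
        rwa [hep.1, hep.2] at this
      have := conj_nonneg (c := 1 - r) h9
      rwa [hs1] at this
    have h9 : (1 - r) * e * (1 - r) = 0 := by
      rw [h7] at h6
      have h10 : (s / 2) • ((1 - r) * e * (1 - r)) ≤ 0 := by
        have := neg_nonneg.1 h6
        exact this
      have h11 : 0 ≤ (s / 2) • ((1 - r) * e * (1 - r)) := smul_nonneg (by positivity) h8
      have h12 := le_antisymm h10 h11
      rcases smul_eq_zero.1 h12 with h | h
      · exfalso; linarith
      · exact h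
    have h10 : e * (1 - r) = 0 := by
      have : star (e * (1 - r)) * (e * (1 - r)) = 0 := by
        rw [star_mul, hs1, hep.1, mul_assoc, ← mul_assoc e e, hep.2, ← mul_assoc]
        exact h9
      exact (CStarRing.star_mul_self_eq_zero_iff _).1 this
    have her : e * r = e := by
      rw [mul_sub, mul_one, sub_eq_zero] at h10; exact h10.symm
    have hre : r * e = e := by
      have := congrArg star her
      rwa [star_mul, hep.1, hr.1] at this
    obtain ⟨z1, hz1, hez⟩ := hcut e he hep hre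
    obtain ⟨z, hz, h11, h12⟩ := ih (y - (s / 2) • e) (s / 2) (by positivity)
      (sub_mem hy (rsmul_mem' _ he)) h4 h5 (by rw [mul_sub, hry, mul_smul_comm, hre])
    refine ⟨z + (s / 2) • z1, cen_add hz (cen_rsmul _ hz1.2), ?_, ?_⟩
    · have e1 : y - (z + (s / 2) • z1) * r = y - (s / 2) • e - z * r := by
        rw [add_mul, smul_mul_assoc, ← hez]; abel
      rw [e1]; exact h11
    · have e1 : y - (z + (s / 2) • z1) * r = y - (s / 2) • e - z * r := by
        rw [add_mul, smul_mul_assoc, ← hez]; abel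
      have e2 : s / 2 ^ (n + 1) = s / 2 / 2 ^ n := by rw [pow_succ]; field_simp
      rw [e1, e2]; exact h12

theorem sa_approx (h3 : Z_bin) {r : H →L[ℂ] H} (hrM : r ∈ M) (hr : IsPr r)
    (hcut : ∀ E ∈ M, IsPr E → r * E = E → ∃ z, IsCP M z ∧ E = z * r)
    {y : H →L[ℂ] H} (hy : y ∈ M) (hs : IsSelfAdjoint y) (hry : r * y = y) {ε : ℝ} (hε : 0 < ε) :
    ∃ z, IsCen M z ∧ ‖y - z * r‖ ≤ ε := by
  have hyr : y * r = y := by
    have := congrArg star hry
    rwa [star_mul, hs.star_eq, hr.1] at this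
  have hb := IsSelfAdjoint.neg_algebraMap_norm_le_self hs
  have hb' := IsSelfAdjoint.le_algebraMap_norm_self hs
  obtain ⟨t, ht⟩ : ∃ t : ℝ, t = ‖y‖ := ⟨_, rfl⟩
  rw [← ht] at hb hb'
  have ht0 : 0 ≤ t := by rw [ht]; exact norm_nonneg _
  have hrn : 0 ≤ r := by
    have := star_mul_self_nonneg r
    rwa [hr.1, hr.2] at this
  have h1r : 0 ≤ 1 - r := by
    have := star_mul_self_nonneg (1 - r)
    rwa [show star (1 - r) * (1 - r) = 1 - r by
      rw [star_sub, star_one, hr.1, mul_sub, mul_one, sub_mul, one_mul, hr.2]; abel] at this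
  have h1 : 0 ≤ y + t • r := by
    have h2 : 0 ≤ y + algebraMap ℝ (H →L[ℂ] H) t := by
      have := sub_nonneg.2 hb
      rwa [sub_neg_eq_add] at this
    have h4 := conj_nonneg (c := r) h2
    have e : star r * (y + algebraMap ℝ (H →L[ℂ] H) t) * r = y + t • r := by
      rw [hr.1, mul_add, hry, add_mul, hyr, Algebra.algebraMap_eq_smul_one, mul_smul_comm, mul_one,
        smul_mul_assoc, hr.2]
    rwa [e] at h4
  have h2 : y + t • r ≤ algebraMap ℝ (H →L[ℂ] H) (2 * t + 1) := by
    have h4 : t • r ≤ algebraMap ℝ (H →L[ℂ] H) (t + 1) := by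
      rw [Algebra.algebraMap_eq_smul_one, add_smul, one_smul]
      have h5 : t • r ≤ t • (1 : H →L[ℂ] H) := by
        have := smul_nonneg ht0 h1r
        rwa [smul_sub, sub_nonneg] at this
      have h6 : (0 : H →L[ℂ] H) ≤ 1 := by
        have := star_mul_self_nonneg (1 : H →L[ℂ] H)
        rwa [star_one, one_mul] at this
      exact h5.trans (le_add_of_nonneg_right h6)
    have := add_le_add hb' h4
    rwa [← map_add, show t + (t + 1) = 2 * t + 1 by ring] at this
  obtain ⟨n, hn⟩ : ∃ n : ℕ, (2 * t + 1) / 2 ^ n ≤ ε := by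
    obtain ⟨n, hn⟩ := pow_unbounded_of_one_lt ((2 * t + 1) / ε) (by norm_num : (1 : ℝ) < 2)
    refine ⟨n, ?_⟩
    rw [div_le_iff₀ (by positivity)]
    rw [div_lt_iff₀ hε] at hn
    linarith
  obtain ⟨z, hz, h4, h5⟩ := pos_approx h3 hr hcut n (y + t • r) (2 * t + 1) (by linarith)
    (add_mem hy (rsmul_mem' _ hrM)) h1 h2 (by rw [mul_add, hry, mul_smul_comm, hr.2])
  refine ⟨z + (-t) • 1, cen_add hz (cen_rsmul _ cen_one), ?_⟩
  have e : y - (z + (-t) • 1) * r = y + t • r - z * r := by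
    rw [add_mul, smul_mul_assoc, one_mul, neg_smul]; abel
  rw [e]
  refine le_trans ?_ hn
  exact (CStarAlgebra.norm_le_iff_le_algebraMap _ (by positivity) h4).2 h5

end

end Z459

open Z459

theorem dp_Vab (h1 : V_supp) (h2 : F_polar.{0}) (h3 : Z_bin) : V_ab := by
  intro H _ _ _ M r hrM hr hv x hx ε hε
  have hcut : ∀ E ∈ M, IsPr E → r * E = E → ∃ z, IsCP M z ∧ E = z * r :=
    fun E hE hEp hrE => cut h1 h2 hrM hr hv hE hEp hrE
  obtain ⟨y, hy⟩ : ∃ y, y = r * x * r := ⟨_, rfl⟩
  have hyM : y ∈ M := by rw [hy]; exact mul_mem (mul_mem hrM hx) hrM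
  have hry : r * y = y := by rw [hy, ← mul_assoc, ← mul_assoc, hr.2]
  have hys : r * star y = star y := by
    rw [hy, star_mul, star_mul, hr.1, ← mul_assoc r r, hr.2]
  have hsM : star y ∈ M := star_mem hyM
  have ha : IsSelfAdjoint (y + star y) := IsSelfAdjoint.add_star_self y
  have hb : IsSelfAdjoint (Complex.I • (y - star y)) := by
    rw [isSelfAdjoint_iff, star_smul, star_sub, star_star]
    simp only [RCLike.star_def, Complex.conj_I]
    rw [neg_smul, ← smul_neg, neg_sub]
  obtain ⟨za, hza, h4⟩ := sa_approx h3 hrM hr hcut (add_mem hyM hsM) ha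
    (by rw [mul_add, hry, hys]) hε
  obtain ⟨zb, hzb, h5⟩ := sa_approx h3 hrM hr hcut (smul_mem' Complex.I (sub_mem hyM hsM)) hb
    (by rw [mul_smul_comm, mul_sub, hry, hys]) hε
  refine ⟨(1 / 2 : ℂ) • za + (-(Complex.I / 2)) • zb, cen_add (cen_smul _ hza) (cen_smul _ hzb), ?_⟩
  rw [← hy]
  have e : y - ((1 / 2 : ℂ) • za + (-(Complex.I / 2)) • zb) * r =
      (1 / 2 : ℂ) • (y + star y - za * r) +
        (-(Complex.I / 2)) • (Complex.I • (y - star y) - zb * r) := by
    have e1 : (-(Complex.I / 2)) • (Complex.I • (y - star y)) = (1 / 2 : ℂ) • (y - star y) := by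
      rw [smul_smul]; congr 1
      have := Complex.I_mul_I
      linear_combination (-1 / 2 : ℂ) * this
    rw [add_mul, smul_mul_assoc, smul_mul_assoc, smul_sub, smul_sub, e1]
    have e2 : (1 / 2 : ℂ) • (y + star y) + (1 / 2 : ℂ) • (y - star y) = y := by
      rw [← smul_add, show y + star y + (y - star y) = (2 : ℂ) • y by rw [two_smul]; abel,
        smul_smul]
      norm_num
    rw [show (1 / 2 : ℂ) • (y + star y) - (1 / 2 : ℂ) • (za * r) +
        ((1 / 2 : ℂ) • (y - star y) - (-(Complex.I / 2)) • (zb * r)) =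
        ((1 / 2 : ℂ) • (y + star y) + (1 / 2 : ℂ) • (y - star y)) -
        ((1 / 2 : ℂ) • (za * r) + (-(Complex.I / 2)) • (zb * r)) by abel, e2]
  rw [e]
  refine (norm_add_le _ _).trans ?_
  rw [norm_smul, norm_smul]
  have n1 : ‖(1 / 2 : ℂ)‖ = 1 / 2 := by norm_num
  have n2 : ‖(-(Complex.I / 2))‖ = 1 / 2 := by
    rw [norm_neg, norm_div, Complex.norm_I]; norm_num
  rw [n1, n2]
  linarith

end H710R2.DP
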