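import Pool.Agent.H175G.Stmts2

/-! Facts for `NDMStmt`. -/

namespace Pool.Agent.H459R3

open Finset Classical
open Pool.Agent.H175G

variable {V : Type} {G : SimpleGraph V} {c0 c1 c2 c3 c4 : V}

/-- each `d` misses at most one `m` -/
theorem miss1 (hg : NoGem G) (hp : NoP23 G) (hc : C5c G c0 c1 c2 c3 c4) {d m m' : V}
    (hd : TD G c0 c1 c2 c3 c4 d) (hm : TM G c0 c1 c2 c3 c4 m) (hm' : TM G c0 c1 c2 c3 c4 m')
    (hl : ¬ G.Adj d m) (hne : m ≠ m') : G.Adj d m' := by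
  by_contra h
  gp 2

/-- each `m` misses at most one `d` -/
theorem miss2 (hg : NoGem G) (hp : NoP23 G) (hc : C5c G c0 c1 c2 c3 c4) {d d' m : V}
    (hd : TD G c0 c1 c2 c3 c4 d) (hd' : TD G c0 c1 c2 c3 c4 d') (hm : TM G c0 c1 c2 c3 c4 m)
    (hl : ¬ G.Adj d m) (hne : d ≠ d') : G.Adj d' m := by
  by_contra h
  gp 2

/-- `D₁ = ∅` -/
theorem noD1 (hg : NoGem G) (hp : NoP23 G) (hc : C5c G c0 c1 c2 c3 c4) {d m m' x : V}
    (hd : TD G c0 c1 c2 c3 c4 d) (hm : TM G c0 c1 c2 c3 c4 m) (hm' : TM G c0 c1 c2 c3 c4 m')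
    (hl : ¬ G.Adj d m) (hne : m ≠ m') (hx : TD G c1 c2 c3 c4 c0 x) : False := by
  have := miss1 hg hp hc hd hm hm' hl hne
  gp 2

/-- `D₄ = ∅` -/
theorem noD4 (hg : NoGem G) (hp : NoP23 G) (hc : C5c G c0 c1 c2 c3 c4) {d m m' x : V}
    (hd : TD G c0 c1 c2 c3 c4 d) (hm : TM G c0 c1 c2 c3 c4 m) (hm' : TM G c0 c1 c2 c3 c4 m')
    (hl : ¬ G.Adj d m) (hne : m ≠ m') (hx : TD G c4 c0 c1 c2 c3 x) : False := by
  have := miss1 hg hp hc hd hm hm' hl hne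
  gp 2

/-- `D₂` is anti to linked `d₀` -/
theorem antiD2 (hg : NoGem G) (hp : NoP23 G) (hc : C5c G c0 c1 c2 c3 c4) {d m m' x : V}
    (hd : TD G c0 c1 c2 c3 c4 d) (hm : TM G c0 c1 c2 c3 c4 m) (hm' : TM G c0 c1 c2 c3 c4 m')
    (hl : ¬ G.Adj d m) (hne : m ≠ m') (hx : TD G c2 c3 c4 c0 c1 x) : ¬ G.Adj x d := by
  intro h
  have := miss1 hg hp hc hd hm hm' hl hne
  gp 2

/-- `D₃` is anti to linked `d₀` -/
theorem antiD3 (hg : NoGem G) (hp : NoP23 G) (hc : C5c G c0 c1 c2 c3 c4) {d m m' x : V}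
    (hd : TD G c0 c1 c2 c3 c4 d) (hm : TM G c0 c1 c2 c3 c4 m) (hm' : TM G c0 c1 c2 c3 c4 m')
    (hl : ¬ G.Adj d m) (hne : m ≠ m') (hx : TD G c3 c4 c0 c1 c2 x) : ¬ G.Adj x d := by
  intro h
  have := miss1 hg hp hc hd hm hm' hl hne
  gp 2

/-- linked `d₀` are anti to `M₂` -/
theorem antiM2 (hg : NoGem G) (hp : NoP23 G) (hc : C5c G c0 c1 c2 c3 c4) {d m m' x : V}
    (hd : TD G c0 c1 c2 c3 c4 d) (hm : TM G c0 c1 c2 c3 c4 m) (hm' : TM G c0 c1 c2 c3 c4 m')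
    (hl : ¬ G.Adj d m) (hne : m ≠ m') (hx : TM G c2 c3 c4 c0 c1 x) : ¬ G.Adj d x := by
  intro h
  have := miss1 hg hp hc hd hm hm' hl hne
  gp 2

/-- if `D₂ ≠ ∅` then linked `d₀` are isolated in `D₀` -/
theorem isoD2 (hg : NoGem G) (hp : NoP23 G) (hc : C5c G c0 c1 c2 c3 c4) {d m m' x d' : V}
    (hd : TD G c0 c1 c2 c3 c4 d) (hm : TM G c0 c1 c2 c3 c4 m) (hm' : TM G c0 c1 c2 c3 c4 m')
    (hl : ¬ G.Adj d m) (hne : m ≠ m') (hx : TD G c2 c3 c4 c0 c1 x)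
    (hd' : TD G c0 c1 c2 c3 c4 d') : ¬ G.Adj d d' := by
  intro h
  have h1 := miss1 hg hp hc hd hm hm' hl hne
  have h2 := antiD2 hg hp hc hd hm hm' hl hne hx
  gp 2

theorem isoD3 (hg : NoGem G) (hp : NoP23 G) (hc : C5c G c0 c1 c2 c3 c4) {d m m' x d' : V}
    (hd : TD G c0 c1 c2 c3 c4 d) (hm : TM G c0 c1 c2 c3 c4 m) (hm' : TM G c0 c1 c2 c3 c4 m')
    (hl : ¬ G.Adj d m) (hne : m ≠ m') (hx : TD G c3 c4 c0 c1 c2 x)
    (hd' : TD G c0 c1 c2 c3 c4 d') : ¬ G.Adj d d' := by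
  intro h
  have h1 := miss1 hg hp hc hd hm hm' hl hne
  have h2 := antiD3 hg hp hc hd hm hm' hl hne hx
  gp 2

/-- an `N`-neighbour of a linked `d₀` is adjacent to all of `D₂` -/
theorem nD2 (hg : NoGem G) (hp : NoP23 G) (hc : C5c G c0 c1 c2 c3 c4) {d m m' x n : V}
    (hd : TD G c0 c1 c2 c3 c4 d) (hm : TM G c0 c1 c2 c3 c4 m) (hm' : TM G c0 c1 c2 c3 c4 m')
    (hl : ¬ G.Adj d m) (hne : m ≠ m') (hx : TD G c2 c3 c4 c0 c1 x)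
    (hn : TN G c0 c1 c2 c3 c4 n) (hnd : G.Adj n d) : G.Adj n x := by
  by_contra h
  have h1 := miss1 hg hp hc hd hm hm' hl hne
  have h2 := antiD2 hg hp hc hd hm hm' hl hne hx
  gp 2

theorem nD3 (hg : NoGem G) (hp : NoP23 G) (hc : C5c G c0 c1 c2 c3 c4) {d m m' x n : V}
    (hd : TD G c0 c1 c2 c3 c4 d) (hm : TM G c0 c1 c2 c3 c4 m) (hm' : TM G c0 c1 c2 c3 c4 m')
    (hl : ¬ G.Adj d m) (hne : m ≠ m') (hx : TD G c3 c4 c0 c1 c2 x)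
    (hn : TN G c0 c1 c2 c3 c4 n) (hnd : G.Adj n d) : G.Adj n x := by
  by_contra h
  have h1 := miss1 hg hp hc hd hm hm' hl hne
  have h2 := antiD3 hg hp hc hd hm hm' hl hne hx
  gp 2

/-- a `d₂` has at most one neighbour in `N` -/
theorem oneN (hg : NoGem G) (hp : NoP23 G) (hc : C5c G c0 c1 c2 c3 c4) {x n n' : V}
    (hx : TD G c0 c1 c2 c3 c4 x) (hn : TN G c0 c1 c2 c3 c4 n) (hn' : TN G c0 c1 c2 c3 c4 n')
    (h : G.Adj n x) (h' : G.Adj n' x) : n = n' := by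
  by_contra hne
  gp 2

end Pool.Agent.H459R3
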